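import Pool.Agent.N245.DS.Geo

set_option autoImplicit false

/-! # Project DS (helper245), part BRIDGE (helper152): from the plane `ℝ × ℝ` to `ℂ` -/

namespace Pool.Agent.N152.DS

open MeasureTheory Pool.Agent.N245.DS

/-- the identification of `ℝ × ℝ` and `ℂ` -/
noncomputable def em : (ℝ × ℝ) ≃L[ℝ] ℂ := Complex.equivRealProdCLM.symm

theorem em_apply (p : ℝ × ℝ) : em p = p.1 + p.2 * Complex.I :=
  Complex.equivRealProdCLM_symm_apply p

theorem tr_apply (v z : ℂ) : tr v z = z + v := rfl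

theorem tr_inv_apply (v z : ℂ) : (tr v)⁻¹ z = z - v := by
  have h1 : tr v (z - v) = z := by rw [tr_apply, sub_add_cancel]
  have h2 : (tr v)⁻¹ (tr v (z - v)) = z - v := by
    rw [← IsometryEquiv.mul_apply, inv_mul_cancel]
    rfl
  rwa [h1] at h2

theorem tr_zpow_apply (v : ℂ) (m : ℤ) : ∀ z, (tr v ^ m) z = z + m * v := by
  induction m using Int.induction_on with
  | zero =>
    intro z
    rw [zpow_zero, Int.cast_zero, zero_mul, add_zero]
    rfl
  | succ n ih =>
    intro z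
    rw [zpow_add_one, IsometryEquiv.mul_apply, ih, tr_apply]
    push_cast
    ring
  | pred n ih =>
    intro z
    rw [zpow_sub_one, IsometryEquiv.mul_apply, ih, tr_inv_apply]
    push_cast
    ring

theorem mem_lat {v w : ℂ} {σ : ℂ ≃ᵢ ℂ} :
    σ ∈ lat v w ↔ ∃ m n : ℤ, ∀ z, σ z = z + (m * v + n * w) := by
  constructor
  · intro h
    unfold lat at h
    induction h using Subgroup.closure_induction with
    | mem x hx =>
      rcases hx with rfl | hx
      · exact ⟨1, 0, fun z => by rw [tr_apply]; push_cast; ring⟩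
      · rw [Set.mem_singleton_iff] at hx
        rw [hx]
        exact ⟨0, 1, fun z => by rw [tr_apply]; push_cast; ring⟩
    | one => exact ⟨0, 0, fun z => by
        push_cast
        rw [zero_mul, zero_mul, add_zero, add_zero]
        rfl⟩
    | mul x y _ _ hx hy =>
      obtain ⟨m, n, h1⟩ := hx
      obtain ⟨m', n', h2⟩ := hy
      refine ⟨m + m', n + n', fun z => ?_⟩
      rw [IsometryEquiv.mul_apply, h1, h2]
      push_cast
      ring
    | inv x _ hx =>
      obtain ⟨m, n, h1⟩ := hx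
      refine ⟨-m, -n, fun z => ?_⟩
      have h2 : x (z - (m * v + n * w)) = z := by
        rw [h1]
        ring
      have h3 : x⁻¹ (x (z - (m * v + n * w))) = z - (m * v + n * w) := by
        rw [← IsometryEquiv.mul_apply, inv_mul_cancel]
        rfl
      rw [h2] at h3
      rw [h3]
      push_cast
      ring
  · rintro ⟨m, n, h⟩
    have h1 : tr v ∈ lat v w := Subgroup.subset_closure (Or.inl rfl)
    have h2 : tr w ∈ lat v w := Subgroup.subset_closure (Or.inr rfl)
    have h3 : σ = tr v ^ m * tr w ^ n := by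
      ext z
      rw [IsometryEquiv.mul_apply, tr_zpow_apply, tr_zpow_apply, h]
      ring
    rw [h3]
    exact (lat v w).mul_mem ((lat v w).zpow_mem h1 m) ((lat v w).zpow_mem h2 n)

theorem len_em (ρ : ℂ → ℝ) (γ : ℝ → ℝ × ℝ) (hγ : ContDiff ℝ 1 γ) :
    len ρ (fun s => em (γ s)) =
      Pool.Agent.Y291.DB.len (fun p => ρ (p.1 + p.2 * Complex.I)) γ := by
  unfold len Pool.Agent.Y291.DB.len
  refine intervalIntegral.integral_congr fun s _ => ?_
  have h1 : HasDerivAt γ (deriv γ s) s :=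
    ((hγ.differentiable (by norm_num)) s).hasDerivAt
  have h2 : HasDerivAt (fun s => em (γ s)) (em (deriv γ s)) s :=
    (em : (ℝ × ℝ) →L[ℝ] ℂ).hasFDerivAt.comp_hasDerivAt s h1
  show Real.sqrt (ρ (em (γ s))) * ‖deriv (fun s => em (γ s)) s‖ = _
  rw [h2.deriv, em_apply, em_apply, Complex.norm_add_mul_I]

theorem gdist_em (ρ : ℂ → ℝ) (L α : ℝ) (p q : ℝ × ℝ) :
    gdist ρ (lat (L + α * Complex.I) (2 * Real.pi * Complex.I)) (em p) (em q) =
      Pool.Agent.Y291.DB.gdist (fun p => ρ (p.1 + p.2 * Complex.I)) L α p q := by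
  unfold gdist Pool.Agent.Y291.DB.gdist
  congr 1
  ext l
  constructor
  · rintro ⟨γ, h1, h2, ⟨σ, h3, h4⟩, h5⟩
    obtain ⟨m, n, h6⟩ := mem_lat.1 h3
    have h7 : ContDiff ℝ 1 (fun s => em.symm (γ s)) := em.symm.contDiff.comp h1
    refine ⟨fun s => em.symm (γ s), h7, ?_, ⟨m, n, ?_⟩, ?_⟩
    · show em.symm (γ 0) = p
      rw [h2, ContinuousLinearEquiv.symm_apply_apply]
    · show em.symm (γ 1) = _
      rw [ContinuousLinearEquiv.symm_apply_eq, h4, h6, em_apply, em_apply]
      push_cast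
      ring
    · rw [← len_em ρ _ h7, h5]
      simp only [ContinuousLinearEquiv.apply_symm_apply]
  · rintro ⟨γ, h1, h2, ⟨m, n, h3⟩, h4⟩
    refine ⟨fun s => em (γ s), em.contDiff.comp h1, ?_,
      ⟨tr (L + α * Complex.I) ^ m * tr (2 * Real.pi * Complex.I) ^ n, ?_, ?_⟩, ?_⟩
    · show em (γ 0) = em p
      rw [h2]
    · rw [mem_lat]
      refine ⟨m, n, fun z => ?_⟩
      rw [IsometryEquiv.mul_apply, tr_zpow_apply, tr_zpow_apply]
      ring
    · show em (γ 1) = _
      rw [h3, IsometryEquiv.mul_apply, tr_zpow_apply, tr_zpow_apply, em_apply, em_apply]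
      push_cast
      ring
    · rw [h4, len_em ρ γ h1]

theorem mem_disc_em (ρ : ℂ → ℝ) (L α : ℝ) (p q : ℝ × ℝ) (r : ℝ) :
    em q ∈ disc ρ (lat (L + α * Complex.I) (2 * Real.pi * Complex.I)) (em p) r ↔
      q ∈ Pool.Agent.Y291.DB.disc (fun p => ρ (p.1 + p.2 * Complex.I)) L α p r := by
  show gdist ρ (lat (L + α * Complex.I) (2 * Real.pi * Complex.I)) (em p) (em q) < r ↔
    Pool.Agent.Y291.DB.gdist (fun p => ρ (p.1 + p.2 * Complex.I)) L α p q < r
  rw [gdist_em]

theorem image_em (ρ : ℂ → ℝ) (L α : ℝ) (p : ℝ × ℝ) (r : ℝ) (φ : ℂ → ℝ) :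
    (fun q => |φ q|) '' disc ρ (lat (L + α * Complex.I) (2 * Real.pi * Complex.I)) (em p) r =
      (fun q => |φ (em q)|) ''
        Pool.Agent.Y291.DB.disc (fun p => ρ (p.1 + p.2 * Complex.I)) L α p r := by
  ext y
  constructor
  · rintro ⟨q, hq, rfl⟩
    obtain ⟨q, rfl⟩ := em.surjective q
    exact ⟨q, (mem_disc_em ρ L α p q r).1 hq, rfl⟩
  · rintro ⟨q, hq, rfl⟩
    exact ⟨em q, (mem_disc_em ρ L α p q r).2 hq, rfl⟩

theorem doubling_em (ρ : ℂ → ℝ) (L α : ℝ) (p : ℝ × ℝ) (r : ℝ) (φ : ℂ → ℝ) :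
    doubling ρ (lat (L + α * Complex.I) (2 * Real.pi * Complex.I)) φ (em p) r =
      Pool.Agent.Y291.DB.doubling (fun p => ρ (p.1 + p.2 * Complex.I)) L α (fun q => φ (em q))
        p r := by
  unfold doubling Pool.Agent.Y291.DB.doubling
  rw [image_em, image_em]

theorem sec (φ : ℂ → ℝ) (hφ : ContDiff ℝ 2 φ) (z v : ℂ) (t : ℝ) :
    iteratedDeriv 2 (fun s : ℝ => φ (z + s * v)) t =
      fderiv ℝ (fderiv ℝ φ) (z + t * v) v v := by
  have hl : ∀ s : ℝ, HasDerivAt (fun s : ℝ => z + (s : ℂ) * v) v s := by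
    intro s
    have h1 : HasDerivAt (fun s : ℝ => (s : ℂ)) 1 s := Complex.ofRealCLM.hasDerivAt
    have h2 := (h1.mul_const v).const_add z
    rwa [one_mul] at h2
  have hd : Differentiable ℝ φ := hφ.differentiable (by norm_num)
  have h1 : ContDiff ℝ 1 (fderiv ℝ φ) := hφ.fderiv_right (by norm_num)
  have hd2 : Differentiable ℝ (fderiv ℝ φ) := h1.differentiable (by norm_num)
  have e1 : deriv (fun s : ℝ => φ (z + s * v)) = fun s : ℝ => fderiv ℝ φ (z + s * v) v := by
    funext s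
    exact ((hd _).hasFDerivAt.comp_hasDerivAt s (hl s)).deriv
  rw [iteratedDeriv_succ, iteratedDeriv_one, e1]
  have h2 : HasDerivAt (fun s : ℝ => fderiv ℝ φ (z + s * v))
      (fderiv ℝ (fderiv ℝ φ) (z + t * v) v) t :=
    (hd2 _).hasFDerivAt.comp_hasDerivAt t (hl t)
  have h3 : HasDerivAt (fun s : ℝ => fderiv ℝ φ (z + s * v) v)
      (fderiv ℝ (fderiv ℝ φ) (z + t * v) v v) t := by
    have := h2.clm_apply (hasDerivAt_const t v)
    simpa using this
  exact h3.deriv

theorem lap_em (φ : ℂ → ℝ) (hφ : ContDiff ℝ 2 φ) (p : ℝ × ℝ) :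
    iteratedDeriv 2 (fun x : ℝ => φ (em (x, p.2))) p.1 +
      iteratedDeriv 2 (fun y : ℝ => φ (em (p.1, y))) p.2 = Laplacian.laplacian φ (em p) := by
  rw [InnerProductSpace.laplacian_eq_iteratedFDeriv_complexPlane]
  show _ = (iteratedFDeriv ℝ 2 φ (em p)) ![1, 1] +
    (iteratedFDeriv ℝ 2 φ (em p)) ![Complex.I, Complex.I]
  rw [iteratedFDeriv_two_apply, iteratedFDeriv_two_apply]
  have e1 : (fun x : ℝ => φ (em (x, p.2))) = fun x : ℝ => φ (p.2 * Complex.I + x * 1) := by
    funext x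
    rw [em_apply, mul_one, add_comm]
  have e2 : (fun y : ℝ => φ (em (p.1, y))) = fun y : ℝ => φ (p.1 + y * Complex.I) := by
    funext y
    rw [em_apply]
  rw [e1, e2, sec φ hφ, sec φ hφ, em_apply]
  have e3 : (p.2 : ℂ) * Complex.I + p.1 * 1 = p.1 + p.2 * Complex.I := by ring
  rw [e3]
  rfl

theorem bridge : Pool.Agent.N245.DS.S_BRIDGE := by
  intro ρ L α _ _ _ hG C C₁ C₂ hC hC1 hC2
  obtain ⟨A, hA, h⟩ := hG C C₁ C₂ hC hC1 hC2
  refine ⟨A, hA, fun lam φ hφ ι _ c hc => ?_⟩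
  have hE : Pool.Agent.Y291.DB.Eigen (fun p => ρ (p.1 + p.2 * Complex.I)) L α lam
      (fun q => φ (em q)) := by
    refine ⟨hφ.pos, hφ.smooth.comp em.contDiff, fun p => ?_, fun p => ?_, ?_, fun p => ?_⟩
    · have h1 := hφ.inv (tr (L + α * Complex.I)) (Subgroup.subset_closure (Or.inl rfl)) (em p)
      show φ (em (p.1 + L, p.2 + α)) = φ (em p)
      rw [← h1, tr_apply, em_apply, em_apply]
      congr 1
      push_cast
      ring
    · have h1 := hφ.inv (tr (2 * Real.pi * Complex.I)) (Subgroup.subset_closure (Or.inr rfl))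
        (em p)
      show φ (em (p.1, p.2 + 2 * Real.pi)) = φ (em p)
      rw [← h1, tr_apply, em_apply, em_apply]
      congr 1
      push_cast
      ring
    · obtain ⟨z, hz⟩ := hφ.ne
      obtain ⟨p, rfl⟩ := em.surjective z
      exact ⟨p, hz⟩
    · have h1 := hφ.eq (em p)
      have h2 := lap_em φ hφ.smooth p
      show iteratedDeriv 2 (fun x : ℝ => φ (em (x, p.2))) p.1 +
        iteratedDeriv 2 (fun y : ℝ => φ (em (p.1, y))) p.2 +
        lam * ρ (p.1 + p.2 * Complex.I) * φ (em p) = 0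
      rw [h2, ← em_apply]
      exact h1
  have hc' : ∀ i, em (em.symm (c i)) = c i := fun i => em.apply_symm_apply _
  have hAd : Pool.Agent.Y291.DB.Admissible (fun p => ρ (p.1 + p.2 * Complex.I)) L α lam
      (fun q => φ (em q)) C C₁ C₂ (fun i => em.symm (c i)) := by
    refine ⟨fun q => ?_, hc.lower, hc.upper, fun q => ?_, fun i => ?_⟩
    · obtain ⟨i, hi⟩ := hc.cover (em q)
      refine ⟨i, ?_⟩
      rw [← mem_disc_em, hc']
      exact hi
    · have h1 := hc.mult (em q)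
      have e1 : {i | q ∈ Pool.Agent.Y291.DB.disc (fun p => ρ (p.1 + p.2 * Complex.I)) L α
          (em.symm (c i)) (C / Real.sqrt lam)} =
          {i | em q ∈ disc ρ (lat (L + α * Complex.I) (2 * Real.pi * Complex.I)) (c i)
            (C / Real.sqrt lam)} := by
        ext i
        rw [Set.mem_ofPred_eq, Set.mem_ofPred_eq, ← mem_disc_em, hc']
      rw [e1]
      exact h1
    · show φ (em (em.symm (c i))) = 0
      rw [hc']
      exact hc.zero i
  have h1 := h lam _ hE ι _ hAd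
  have e1 : ∀ i, doubling ρ (lat (L + α * Complex.I) (2 * Real.pi * Complex.I)) φ (c i)
      (C / Real.sqrt lam) = Pool.Agent.Y291.DB.doubling (fun p => ρ (p.1 + p.2 * Complex.I)) L α
        (fun q => φ (em q)) (em.symm (c i)) (C / Real.sqrt lam) := by
    intro i
    rw [← doubling_em, hc']
  rw [Finset.sum_congr rfl fun i _ => e1 i]
  exact h1

end Pool.Agent.N152.DS
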